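import Mathlib
import Pool.Agent.Q216.PC.Main

/-!
# MP_9e0a8c_lc, Q1: the approximation ratio of RD+PCD is always less than 3/2
-/

set_option autoImplicit false

namespace Pool.Agent.Results.MP_9e0a8c_lc.RatioBelow

open Pool.Agent.Q216.PC

/-- For every profile `b` of `2 k + 1` agents on the circle with positive optimal cost there is a
clockwise order of the agents, and for every clockwise order the approximation ratio of RD+PCD
is less than `3 / 2`. -/
theorem result (k : ℕ) {N : Type*} [Fintype N] (hN : Fintype.card N = 2 * k + 1) (b : N → Circ)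
    (hopt : 0 < opt b) :
    (∃ a : ZMod (2 * k + 1) ≃ N, IsClockwise b a) ∧
      ∀ a : ZMod (2 * k + 1) ≃ N, IsClockwise b a →
        sc b ((1 / 2 : ℝ) • RD b + (1 / 2 : ℝ) • PCD b a) / opt b < 3 / 2 :=
  ⟨exists_clockwise hN b hopt, fun a ha => by
    rw [div_lt_iff₀ hopt]
    exact ratio hN b hopt a ha⟩

end Pool.Agent.Results.MP_9e0a8c_lc.RatioBelow
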